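import Pool.Agent.H474.MS.Stm

/-!
# Project MS (helper474), task L2: exchange of sum and integral (helper976)
-/

set_option autoImplicit false

open MeasureTheory Filter Topology Set

namespace Pool.Agent.H976.MS.L2

theorem one_term (w g R h : ℝ) (hg : 0 ≤ g) (hR : 0 ≤ R) (hh : 0 < h) :
    ∫ s in (0 : ℝ)..R, 2 * Real.sin s * (if s / h < g then w else 0) =
      w * (2 * (1 - Real.cos (min (g * h) R))) := by
  obtain ⟨x, hx⟩ : ∃ x : ℝ, x = g * h := ⟨_, rfl⟩
  have hx0 : 0 ≤ x := by rw [hx]; positivity
  rw [← hx]
  have e1 : ∫ s in (0 : ℝ)..R, 2 * Real.sin s * (if s / h < g then w else 0) =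
      ∫ s in Ioc 0 R, (Iio x).indicator (fun s => 2 * Real.sin s * w) s := by
    rw [intervalIntegral.integral_of_le hR]
    apply setIntegral_congr_fun measurableSet_Ioc
    intro s _
    have h1 : s / h < g ↔ s < x := by rw [hx, div_lt_iff₀ hh]
    by_cases h2 : s < x
    · have h3 : s / h < g := h1.2 h2
      simp only [if_pos h3]
      rw [indicator_of_mem (show s ∈ Iio x from h2)]
    · have h3 : ¬ s / h < g := fun h4 => h2 (h1.1 h4)
      simp only [if_neg h3, mul_zero]
      rw [indicator_of_notMem (show s ∉ Iio x from h2)]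
  have e2 : (Ioc 0 R ∩ Iio x : Set ℝ) =ᵐ[volume] (Ioc 0 (min x R) : Set ℝ) := by
    have h1 : (Ioc 0 R ∩ Iio x : Set ℝ) =ᵐ[volume] (Ioc 0 R ∩ Iic x : Set ℝ) :=
      (ae_eq_refl (Ioc 0 R : Set ℝ)).inter Iio_ae_eq_Iic
    have h2 : (Ioc 0 R ∩ Iic x : Set ℝ) = Ioc 0 (min x R) := by
      rw [Ioc_inter_Iic, min_comm]
    rw [h2] at h1
    exact h1
  rw [e1, setIntegral_indicator measurableSet_Iio, setIntegral_congr_set e2,
    ← intervalIntegral.integral_of_le (le_min hx0 hR), intervalIntegral.integral_mul_const,
    intervalIntegral.integral_const_mul, integral_sin, Real.cos_zero]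
  ring

theorem t_L2 : Pool.Agent.H474.MS.S_L2 := by
  intro ι hι w g hD R h hR hh
  have hsum : Summable fun i => 2 * w i := hD.ws.mul_left 2
  have key := intervalIntegral.hasSum_integral_of_dominated_convergence (μ := volume)
    (a := 0) (b := R)
    (F := fun i s => 2 * Real.sin s * (if s / h < g i then w i else 0))
    (f := fun s => 2 * Real.sin s * Pool.Agent.H474.MS.RR w g (s / h))
    (fun i _ => 2 * w i) ?_ ?_ ?_ ?_ ?_
  · have h2 := key.tsum_eq
    rw [← h2]
    apply tsum_congr
    intro i
    exact (one_term (w i) (g i) R h (hD.g0 i) hR hh).symm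
  · intro i
    have h1 : Measurable (fun s : ℝ => 2 * Real.sin s * (if s / h < g i then w i else 0)) := by
      apply Measurable.mul (by fun_prop)
      apply Measurable.ite _ measurable_const measurable_const
      exact measurableSet_lt (by fun_prop) measurable_const
    exact h1.aestronglyMeasurable
  · intro i
    refine Eventually.of_forall fun s _ => ?_
    rw [norm_mul, norm_mul, Real.norm_eq_abs, Real.norm_eq_abs, Real.norm_eq_abs, abs_two]
    have h1 : |Real.sin s| ≤ 1 := Real.abs_sin_le_one s
    have h2 : |if s / h < g i then w i else 0| ≤ w i := by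
      split_ifs
      · exact (abs_of_nonneg (hD.w0 i)).le
      · rw [abs_zero]
        exact hD.w0 i
    calc 2 * |Real.sin s| * |if s / h < g i then w i else 0| ≤ 2 * 1 * w i := by
          apply mul_le_mul _ h2 (abs_nonneg _) (by norm_num)
          linarith
      _ = 2 * w i := by ring
  · exact Eventually.of_forall fun _ _ => hsum
  · exact intervalIntegrable_const
  · refine Eventually.of_forall fun s _ => ?_
    have h1 : Summable (fun i => if s / h < g i then w i else 0) := by
      apply Summable.of_nonneg_of_le _ _ hD.ws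
      · intro i
        split_ifs
        · exact hD.w0 i
        · exact le_rfl
      · intro i
        split_ifs
        · exact le_rfl
        · exact hD.w0 i
    exact h1.hasSum.mul_left (2 * Real.sin s)

end Pool.Agent.H976.MS.L2
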